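import Pool.Agent.W_MP_5f6b2a_lc.CMain

/-!
# The W-hierarchy is strict under order-free bounded-variable infinitary counting reductions

Inputs are finite relational structures (circuits are structures with unary relations for the kinds
of gates and the output, and a binary relation for the wires). Reductions are slicewise
interpretations, with definable congruences, by formulas of infinitary logic with counting
quantifiers and a bounded number of variables, without an order; they may be arbitrarily
non-uniform in the parameter.
-/

namespace Pool.Agent.Results.MP_5f6b2a_lc.CountingLogicStrict

open Pool.Agent.W_MP_5f6b2a_lc.Count Pool.Agent.W_MP_5f6b2a_lc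

theorem result (t : ℕ) (ht : 1 ≤ t) :
    Count.W t ⊂ Count.W (t + 1) ∧
      ∀ s ≤ t, ∀ d, ¬ Reducible (Logic.pWSAT (t + 1) (2 * t)) (Logic.pWSAT s d) :=
  W_strict t ht

end Pool.Agent.Results.MP_5f6b2a_lc.CountingLogicStrict
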