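import Pool.Agent.W74_5f6b2a.Lower
import Pool.Agent.W74_5f6b2a.Upper

/-!
The W-hierarchy is strict for reductions computed by circuits with at most `δ * log₂ n` negation
gates, for every `δ < 1`, while with `log₂ (n + 1)` negation gates one gets all reductions.
-/

namespace Pool.Agent.Results.MP_5f6b2a_lc.NegationLimitedStrict

open Filter Pool.Agent.W_MP_5f6b2a_mon Pool.Agent.W74_5f6b2a

/-- `NegW r t` is the class of the parameterized problems which reduce to the weighted
satisfiability problem for formulas of weft at most `t` and bounded depth by non-uniform reductions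
computed by circuits of fpt size and unbounded depth in which the total number of negation gates is
at most `r n + f k`; there are no negation gates in `MonW t`, and their number is not bounded in
`GenW t`.

For every `t ≥ 1` the weighted satisfiability problem `NSat t` for `(t + 1)`-normalized formulas
is in `MonW (t + 1)`, but outside `MonW t` and even outside `NegW r t` whenever
`r n ≤ δ * log₂ n` for all large `n`, where `δ < 1`. In particular `NegW r t` is strictly
contained in `NegW r (t + 1)` for all these `r`. This is best possible up to the constant factor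
`δ`: if `r n ≥ log₂ (n + 1)` for all `n`, then `NegW r t = GenW t` (Markov, Fischer). -/
theorem result (t : ℕ) (ht : 1 ≤ t) :
    MonW t ⊂ MonW (t + 1) ∧ NSat t ∈ MonW (t + 1) ∧
      (∀ r : ℕ → ℕ, (∃ δ : ℝ, δ < 1 ∧ ∀ᶠ n : ℕ in atTop, (r n : ℝ) ≤ δ * Real.logb 2 n) →
        NSat t ∉ NegW r t ∧ NegW r t ⊂ NegW r (t + 1)) ∧
      ∀ r : ℕ → ℕ, (∀ n, n + 1 ≤ 2 ^ r n) → NegW r t = GenW t := by
  refine ⟨(monotone_strict t ht).1, nsat_mem t, fun r ⟨δ, hδ, hr⟩ =>
    ⟨nsat_not_mem_negW ht hδ hr, negW_mono r t, fun h => ?_⟩, fun r hr => negW_eq_genW hr t⟩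
  exact nsat_not_mem_negW ht hδ hr (h (monW_subset_negW r (t + 1) (nsat_mem t)))

end Pool.Agent.Results.MP_5f6b2a_lc.NegationLimitedStrict
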