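import Pool.Agent.W74_5f6b2a_tape.Sharp
import Pool.Agent.W_MP_5f6b2a_lc.Asm
import Pool.Agent.W_MP_5f6b2a_lc.Depth
import Pool.Agent.W_MP_5f6b2a_lc.Upper

/-!
The W-hierarchy is strict for reductions computed by bounded-depth formulas over decision trees of
depth `n ^ β` and observations of one-tape machines with time times memory at most `n ^ (1 + α)`,
for `α + β < 1`.
-/

namespace Pool.Agent.Results.MP_5f6b2a_lc.OneTapeStrict

open Pool.Agent.W_MP_5f6b2a_lc Pool.Agent.W74_5f6b2a_tape

/-- `W t` is the class of the parameterized problems which are reducible to some `p-WSAT(C_{t,d})`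
by (non-uniform) para-AC0 reductions. The class `WT α β t` is formed with more powerful reductions:
formulas of constant depth and fpt size over decision trees of depth `O(n ^ β)` and arbitrary
observations of one-tape machines whose input is written on the tape in any order, with
`time * memory` at most `O(n ^ (1 + α))`.

For every `t ≥ 1` there is `d` such that `p-WSAT(C_{t+1,d})` has no para-AC0 reduction to any
`p-WSAT(C_{t,d'})`, and such that its padded version `Pad (pWSAT (t + 1) d)` is in `W (t + 1)` but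
in none of the classes `WT α β t` with `α + β < 1`. Hence `WT α β t` is strictly contained in
`WT α β (t + 1)` if `α + β < 1`. If `α ≥ 1` or `β ≥ 1`, then all problems are in `WT α β t`. -/
theorem result (t : ℕ) (ht : 1 ≤ t) :
    (∃ d, 1 ≤ d ∧ (∀ d', ¬ ParaAC0Reducible (pWSAT (t + 1) d) (pWSAT t d')) ∧
      Pad (pWSAT (t + 1) d) ∈ W (t + 1) ∧
      ∀ α β : ℝ, 0 ≤ α → 0 ≤ β → α + β < 1 →
        Pad (pWSAT (t + 1) d) ∉ WT α β t ∧ W t ⊆ WT α β t ∧ WT α β t ⊂ WT α β (t + 1)) ∧
      ∀ α β : ℝ, 0 ≤ α → 0 ≤ β → 1 ≤ α ∨ 1 ≤ β → WT α β t = Set.univ := by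
  refine ⟨?_, fun α β hα hβ h => h.elim (fun h => sharp_machine h hβ t)
    fun h => sharp_tree h t⟩
  obtain ⟨t, rfl⟩ := Nat.exists_eq_add_of_le' ht
  obtain ⟨d, hd, h⟩ := Asm.no_reduction depth_hierarchy upper_bound t
  have hmem : Pad (pWSAT (t + 1 + 1) d) ∈ W (t + 1 + 1) := pad_mem _ _ hd
  refine ⟨d, hd, h, hmem, fun α β hα hβ hαβ => ?_⟩
  have hnot : Pad (pWSAT (t + 1 + 1) d) ∉ WT α β (t + 1) := by
    rintro ⟨d', -, hred⟩
    exact h d' (elim hα hβ hαβ hred)
  exact ⟨hnot, W_subset_WT hβ _, WT_subset α β _, fun hsub => hnot (hsub (W_subset_WT hβ _ hmem))⟩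

end Pool.Agent.Results.MP_5f6b2a_lc.OneTapeStrict
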