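import Pool.Agent.W91_5f6b2a.Elim
import Pool.Agent.W91_5f6b2a.Mono
import Pool.Agent.W_MP_5f6b2a_lc.Asm
import Pool.Agent.W_MP_5f6b2a_lc.Depth
import Pool.Agent.W_MP_5f6b2a_lc.Upper

/-!
The W-hierarchy is strict for reductions computed by bounded-depth formulas over the gates of
bounded-depth threshold circuits with `n ^ (1 + ε)` wires.
-/

namespace Pool.Agent.Results.MP_5f6b2a_lc.SparseThresholdStrict

open Pool.Agent.W_MP_5f6b2a_lc Pool.Agent.W91_5f6b2a

/-- `W t` is the class of the parameterized problems which are reducible to some `p-WSAT(C_{t,d})`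
by (non-uniform) para-AC0 reductions. The class `WS D ε t` is formed with more powerful reductions:
formulas of constant depth and fpt size over the inputs and the gates of a circuit of depth `D` with
`O(n ^ (1 + ε))` wires, whose gates are arbitrary functions with at most `q` jumps of a weighted sum
with real weights (threshold gates have one jump), or arbitrary functions of at most `q` signals,
where `q` is `O(n ^ ε)`.

For every `t ≥ 1` there is `d` such that for every depth `D` the padded version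
`Pad D (pWSAT (t + 1) d)` of `p-WSAT(C_{t+1,d})` is in `W (t + 1)` but in none of the classes
`WS D ε t` with `ε < 4 / (5 ^ (D + 1) - 5)`. Hence `WS D ε t` is strictly contained in
`WS D ε (t + 1)` for these `ε`. -/
theorem result (t : ℕ) (ht : 1 ≤ t) :
    ∃ d, 1 ≤ d ∧ ∀ D : ℕ, Pad D (pWSAT (t + 1) d) ∈ W (t + 1) ∧
      ∀ ε : ℝ, 0 ≤ ε → (5 ^ (D + 1) - 5) * ε < 4 →
        Pad D (pWSAT (t + 1) d) ∉ WS D ε t ∧ W t ⊆ WS D ε t ∧ WS D ε t ⊂ WS D ε (t + 1) := by
  obtain ⟨t, rfl⟩ := Nat.exists_eq_add_of_le' ht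
  obtain ⟨d, hd, h⟩ := Asm.no_reduction depth_hierarchy upper_bound t
  refine ⟨d, hd, fun D => ?_⟩
  have hmem : Pad D (pWSAT (t + 1 + 1) d) ∈ W (t + 1 + 1) := pad_mem D _ _ hd
  refine ⟨hmem, fun ε hε hD => ?_⟩
  have hnot : Pad D (pWSAT (t + 1 + 1) d) ∉ WS D ε (t + 1) := by
    rintro ⟨d', -, hred⟩
    exact h d' (elim hε hD hred)
  exact ⟨hnot, W_subset_WS D ε _, WS_subset D ε _, fun hsub => hnot (hsub (W_subset_WS D ε _ hmem))⟩

end Pool.Agent.Results.MP_5f6b2a_lc.SparseThresholdStrict
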